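import Pool.Agent.Helper805_nf.T

set_option autoImplicit false

namespace Pool.Agent.Results.MP_6cccb1_co.MultAtMostTwo

/-- Let `v = 2 n + 1` be any odd number and let `L` be a list of `n` integers in `[1, n]` in which no integer
occurs more than twice. Then some near 1-factor of the complete graph on `{0, …, v - 1}` has edge-length
list `L`. The edges are `{g (inl i), g (inr i)}`, `i : Fin n`, and `g` is injective. -/
theorem result (n : ℕ) (L : Multiset ℕ) (hcard : Multiset.card L = n)
    (hL : ∀ x ∈ L, 1 ≤ x ∧ x ≤ n) (hmult : ∀ x, L.count x ≤ 2) :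
    ∃ g : Fin n ⊕ Fin n → Fin (2 * n + 1), Function.Injective g ∧
      Multiset.map
        (fun i : Fin n =>
          min (Int.natAbs (((g (Sum.inl i) : ℕ) : ℤ) - ((g (Sum.inr i) : ℕ) : ℤ)))
            (2 * n + 1 - Int.natAbs (((g (Sum.inl i) : ℕ) : ℤ) - ((g (Sum.inr i) : ℕ) : ℤ))))
        (Finset.univ : Finset (Fin n)).val = L :=
  Pool.Agent.Helper805_nf.T2 n L hcard hL hmult

end Pool.Agent.Results.MP_6cccb1_co.MultAtMostTwo
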