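import Pool.Agent.Helper805_nf.Q17

set_option autoImplicit false

namespace Pool.Agent.Results.MP_6cccb1_co.OneSided

/-- Let `v = 2 n + 1 = m * p` with `p` prime, `p` not dividing `m`, and let `L` be a list of `n` integers in
`[1, n]`. Suppose that either for every `c` with `1 ≤ c < m / 2` at least `p` entries of `L` are congruent to
`c` or `-c` modulo `m`, and no integer occurs more than `p` times in `L`; or for every such `c` at most `p`
entries of `L` are congruent to `c` or `-c` modulo `m`, and fewer than `p` entries are divisible by `m`. Then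
the complete graph on `{0, …, v - 1}` has a near 1-factor with edge-length list `L`. The edges are
`{g (inl i), g (inr i)}`, `i : Fin n`, and `g` is injective. -/
theorem result (m p n : ℕ) (hp : p.Prime) (hpm : ¬ p ∣ m) (hn : 2 * n + 1 = m * p)
    (L : Multiset ℕ) (hcard : Multiset.card L = n) (hL : ∀ x ∈ L, 1 ≤ x ∧ x ≤ n)
    (h : ((∀ c, 1 ≤ c → 2 * c < m → p ≤ Multiset.card (L.filter (fun x => x % m = c ∨ x % m = m - c))) ∧
        ∀ x, L.count x ≤ p) ∨
      ((∀ c, 1 ≤ c → 2 * c < m → Multiset.card (L.filter (fun x => x % m = c ∨ x % m = m - c)) ≤ p) ∧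
        Multiset.card (L.filter (fun x => m ∣ x)) < p)) :
    ∃ g : Fin n ⊕ Fin n → Fin (2 * n + 1), Function.Injective g ∧
      Multiset.map
        (fun i : Fin n =>
          min (Int.natAbs (((g (Sum.inl i) : ℕ) : ℤ) - ((g (Sum.inr i) : ℕ) : ℤ)))
            (2 * n + 1 - Int.natAbs (((g (Sum.inl i) : ℕ) : ℤ) - ((g (Sum.inr i) : ℕ) : ℤ))))
        (Finset.univ : Finset (Fin n)).val = L :=
  Pool.Agent.Helper805_nf.one_sided m p n hp hpm hn L hcard hL h

end Pool.Agent.Results.MP_6cccb1_co.OneSided
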