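import Pool.Agent.Helper805_nf.Z29
import Pool.Agent.Helper805_nf.R18

set_option autoImplicit false

namespace Pool.Agent.Results.MP_6cccb1_co.ThreePrime

/-- Let `p` be prime and `v = 2 n + 1 = 3 * p`. For every list `L` of `n` integers in `[1, n]`, the complete
graph on `{0, …, v - 1}` has a near 1-factor with edge-length list `L` if and only if for every divisor `d`
of `v` at most `(v - d) / 2` entries of `L` are divisible by `d`. The edges are `{g (inl i), g (inr i)}`,
`i : Fin n`, and `g` is injective. -/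
theorem result (p n : ℕ) (hp : p.Prime) (hv : 2 * n + 1 = 3 * p) (L : Multiset ℕ)
    (hcard : Multiset.card L = n) (hL : ∀ x ∈ L, 1 ≤ x ∧ x ≤ n) :
    (∃ g : Fin n ⊕ Fin n → Fin (2 * n + 1), Function.Injective g ∧
      Multiset.map
        (fun i : Fin n =>
          min (Int.natAbs (((g (Sum.inl i) : ℕ) : ℤ) - ((g (Sum.inr i) : ℕ) : ℤ)))
            (2 * n + 1 - Int.natAbs (((g (Sum.inl i) : ℕ) : ℤ) - ((g (Sum.inr i) : ℕ) : ℤ))))
        (Finset.univ : Finset (Fin n)).val = L) ↔
      ∀ d : ℕ, d ∣ 2 * n + 1 → 2 * Multiset.card (L.filter (fun x => d ∣ x)) ≤ 2 * n + 1 - d := by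
  constructor
  · intro h d hd
    exact Pool.Agent.Helper805_nf.necessity n d hd L h
  · intro h
    have h3 := h 3 (by rw [hv]; exact Dvd.intro p rfl)
    have h4 := h p (by rw [hv]; exact Dvd.intro_left 3 rfl)
    rw [hv] at h3 h4
    exact Pool.Agent.Helper805_nf.three_prime p n hp hv L hcard hL h3 h4

end Pool.Agent.Results.MP_6cccb1_co.ThreePrime
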